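import Mathlib
import Pool.Graph.R_pool_sql_team_seeded_47a924f7.T6.H46.Toe.Seq

/-! # Toeplitz sequences built from stretched Thue-Morse words: combinatorics

The construction follows the library's Thue-Morse-Toeplitz sequence; every letter of the Thue-Morse
word which is used at a level is now repeated `2 ^ s` times.
-/

set_option autoImplicit false

namespace Pool.Agent.KS6_95.TZ

open Pool.Agent.T6.H46.Toe (tm tm_zero tm_two_mul tm_two_mul_add_one tm_pow)

/-- the number of blocks of level `k` in a block of level `k + 1` -/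
def Q (s k : ℕ) : ℤ := 2 ^ (k + s + 8)

theorem Q_pos (s k : ℕ) : 0 < Q s k := by unfold Q; positivity

theorem two_le_Q (s k : ℕ) : 2 ≤ Q s k := by
  unfold Q
  calc (2 : ℤ) = 2 ^ 1 := by norm_num
    _ ≤ 2 ^ (k + s + 8) := pow_le_pow_right₀ (by norm_num) (by omega)

/-- the type of the `j`-th block of level `k` -/
def yy (s k : ℕ) (j : ℤ) : Bool :=
  if h : j % Q s k = 0 ∨ j % Q s k = Q s k - 1 then false
  else xor (tm ((j % Q s k).toNat / 2 ^ s)) (yy s (k + 1) (j / Q s k))
termination_by j.natAbs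
decreasing_by
  have hQ := two_le_Q s k
  push Not at h
  obtain ⟨h0, h1⟩ := h
  have hj0 : j ≠ 0 := by rintro rfl; simp at h0
  have hj1 : j ≠ -1 := by
    rintro rfl
    apply h1
    rw [Int.emod_def]
    have : (-1 : ℤ) / Q s k = -1 := by
      rw [Int.ediv_eq_iff_of_pos (by omega)]
      omega
    rw [this]; ring
  rcases lt_or_gt_of_ne hj0 with h | h
  · have hlt : j / Q s k < 0 := Int.ediv_neg_of_neg_of_pos h (by omega)
    have hge : j + 1 ≤ j / Q s k := by
      rw [Int.le_ediv_iff_mul_le (by omega)]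
      have h3 : j ≤ -2 := by omega
      nlinarith [mul_le_mul_of_nonpos_left hQ (show j + 1 ≤ 0 by omega)]
    omega
  · have hge : 0 ≤ j / Q s k := Int.ediv_nonneg h.le (by omega)
    have hlt : j / Q s k < j := by
      rw [Int.ediv_lt_iff_lt_mul (by omega)]
      nlinarith
    omega

theorem yy_def (s k : ℕ) (j : ℤ) : yy s k j = if j % Q s k = 0 ∨ j % Q s k = Q s k - 1 then false
    else xor (tm ((j % Q s k).toNat / 2 ^ s)) (yy s (k + 1) (j / Q s k)) := by
  rw [yy]
  split_ifs <;> rfl

theorem yy_rec (s k : ℕ) (J : ℤ) (d : ℤ) (h0 : 0 ≤ d) (h1 : d < Q s k) :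
    yy s k (Q s k * J + d) =
      if d = 0 ∨ d = Q s k - 1 then false else xor (tm (d.toNat / 2 ^ s)) (yy s (k + 1) J) := by
  have e1 : (Q s k * J + d) % Q s k = d := by
    rw [add_comm, Int.add_mul_emod_self_left, Int.emod_eq_of_lt h0 h1]
  have e2 : (Q s k * J + d) / Q s k = J := by
    rw [add_comm, Int.add_mul_ediv_left _ _ (Q_pos s k).ne', Int.ediv_eq_zero_of_lt h0 h1, zero_add]
  rw [yy_def, e1, e2]

/-- the length of the blocks of level `k` -/
def P (s : ℕ) : ℕ → ℕ
  | 0 => 1
  | k + 1 => P s k * 2 ^ (k + s + 8)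

theorem P_succ (s k : ℕ) : P s (k + 1) = P s k * 2 ^ (k + s + 8) := rfl

theorem P_pos (s k : ℕ) : 0 < P s k := by
  induction k with
  | zero => exact Nat.one_pos
  | succ k ih => unfold P; positivity

theorem P_two_pow (s k : ℕ) : ∃ N, P s k = 2 ^ N ∧ k ≤ N := by
  induction k with
  | zero => exact ⟨0, rfl, le_rfl⟩
  | succ k ih =>
    obtain ⟨N, hN, hk⟩ := ih
    refine ⟨N + (k + s + 8), ?_, by omega⟩
    rw [P_succ, hN, ← pow_add]

theorem P_succ_cast (s k : ℕ) : (P s (k + 1) : ℤ) = P s k * Q s k := by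
  rw [P_succ]; unfold Q; push_cast; ring

/-- the sequence -/
def xx (s : ℕ) : ℤ → Bool := yy s 0

/-- the blocks of the same type agree -/
theorem xx_block (s k : ℕ) : ∀ (J J' : ℤ), yy s k J = yy s k J' → ∀ r : ℤ, 0 ≤ r → r < P s k →
    xx s (P s k * J + r) = xx s (P s k * J' + r) := by
  induction k with
  | zero =>
    intro J J' h r h0 h1
    have : r = 0 := by
      have : (P s 0 : ℤ) = 1 := rfl
      omega
    subst this
    simpa [P, xx] using h
  | succ k ih =>
    intro J J' h r h0 h1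
    have hP : (0 : ℤ) < P s k := by exact_mod_cast P_pos s k
    have hPs := P_succ_cast s k
    have e : ∀ J : ℤ, (P s (k + 1) : ℤ) * J + r =
        P s k * (Q s k * J + r / P s k) + r % P s k := by
      intro J
      have := Int.mul_ediv_add_emod r (P s k)
      rw [hPs]
      linear_combination -this
    rw [e, e]
    refine ih _ _ ?_ _ (Int.emod_nonneg _ hP.ne') (Int.emod_lt_of_pos _ hP)
    have hd0 : 0 ≤ r / (P s k : ℤ) := Int.ediv_nonneg h0 hP.le
    have hd1 : r / (P s k : ℤ) < Q s k := by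
      rw [Int.ediv_lt_iff_lt_mul hP, mul_comm]
      rw [hPs] at h1
      exact h1
    rw [yy_rec s k J _ hd0 hd1, yy_rec s k J' _ hd0 hd1, h]

/-- the types of the blocks of a group -/
theorem yy_group (s k : ℕ) (J : ℤ) (g e : ℕ) (hg : g ≠ 0) (hg2 : g + 1 < 2 ^ (k + 8))
    (he : e < 2 ^ s) : yy s k (Q s k * J + (2 ^ s * g + e : ℕ)) = xor (tm g) (yy s (k + 1) J) := by
  have hs : 0 < 2 ^ s := by positivity
  have hQ : Q s k = ((2 ^ s * 2 ^ (k + 8) : ℕ) : ℤ) := by
    unfold Q; push_cast; rw [← pow_add]; congr 1; ring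
  have h1 : 2 ^ s * g + e + 1 < 2 ^ s * 2 ^ (k + 8) := by
    have : 2 ^ s * (g + 2) ≤ 2 ^ s * 2 ^ (k + 8) := Nat.mul_le_mul_left _ hg2
    nlinarith
  have h2 : 0 < 2 ^ s * g + e := by
    have : 0 < 2 ^ s * g := Nat.mul_pos hs (Nat.pos_of_ne_zero hg)
    omega
  rw [yy_rec s k J _ (by positivity) (by rw [hQ]; exact_mod_cast (by omega)), if_neg]
  · rw [Int.toNat_natCast, Nat.mul_add_div hs, Nat.div_eq_of_lt he, add_zero]
  · rw [hQ]
    omega

theorem xx_toeplitz (s : ℕ) (n : ℤ) : ∃ p : ℕ, 0 < p ∧ ∀ m : ℤ, xx s (n + m * p) = xx s n := by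
  suffices h : ∀ (N : ℕ) (k : ℕ) (j : ℤ), j.natAbs ≤ N → ∃ p : ℕ, 0 < p ∧
      ∀ m : ℤ, yy s k (j + m * p) = yy s k j by
    exact h n.natAbs 0 n le_rfl
  intro N
  induction N with
  | zero =>
    intro k j hj
    have hj0 : j = 0 := by omega
    subst hj0
    refine ⟨2 ^ (k + s + 8), by positivity, fun m => ?_⟩
    have h1 := yy_rec s k m 0 le_rfl (Q_pos s k)
    have h2 := yy_rec s k 0 0 le_rfl (Q_pos s k)
    simp only [true_or, if_true] at h1 h2
    have e1 : (0 : ℤ) + m * ((2 ^ (k + s + 8) : ℕ) : ℤ) = Q s k * m + 0 := by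
      unfold Q; push_cast; ring
    have e2 : (0 : ℤ) = Q s k * 0 + 0 := by ring
    rw [e1, h1]
    conv_rhs => rw [e2, h2]
  | succ N ih =>
    intro k j hj
    have hQp := Q_pos s k
    set d := j % Q s k with hd
    have hd0 : 0 ≤ d := Int.emod_nonneg _ hQp.ne'
    have hd1 : d < Q s k := Int.emod_lt_of_pos _ hQp
    have hj' : j = Q s k * (j / Q s k) + d := (Int.mul_ediv_add_emod j (Q s k)).symm
    by_cases hf : d = 0 ∨ d = Q s k - 1
    · refine ⟨2 ^ (k + s + 8), by positivity, fun m => ?_⟩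
      have e1 : j + m * ((2 ^ (k + s + 8) : ℕ) : ℤ) = Q s k * (j / Q s k + m) + d := by
        conv_lhs => rw [hj']
        unfold Q; push_cast; ring
      rw [e1, yy_rec s k _ d hd0 hd1, if_pos hf]
      conv_rhs => rw [hj', yy_rec s k _ d hd0 hd1, if_pos hf]
    · have hQ := two_le_Q s k
      have hlt : (j / Q s k).natAbs ≤ N := by
        push Not at hf
        obtain ⟨h0, h1⟩ := hf
        have hj0 : j ≠ 0 := by
          intro h
          apply h0
          rw [hd, h]
          simp
        have hj1 : j ≠ -1 := by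
          intro h
          apply h1
          rw [hd, h, Int.emod_def]
          have : (-1 : ℤ) / Q s k = -1 := by
            rw [Int.ediv_eq_iff_of_pos (by omega)]
            omega
          rw [this]; ring
        rcases lt_or_gt_of_ne hj0 with h | h
        · have hlt : j / Q s k < 0 := Int.ediv_neg_of_neg_of_pos h (by omega)
          have hge : j + 1 ≤ j / Q s k := by
            rw [Int.le_ediv_iff_mul_le (by omega)]
            have h3 : j ≤ -2 := by omega
            nlinarith [mul_le_mul_of_nonpos_left hQ (show j + 1 ≤ 0 by omega)]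
          omega
        · have hge : 0 ≤ j / Q s k := Int.ediv_nonneg h.le (by omega)
          have hlt : j / Q s k < j := by
            rw [Int.ediv_lt_iff_lt_mul (by omega)]
            nlinarith
          omega
      obtain ⟨p, hp, hpp⟩ := ih (k + 1) (j / Q s k) hlt
      refine ⟨2 ^ (k + s + 8) * p, by positivity, fun m => ?_⟩
      have e1 : j + m * ((2 ^ (k + s + 8) * p : ℕ) : ℤ) = Q s k * (j / Q s k + m * p) + d := by
        conv_lhs => rw [hj']
        unfold Q; push_cast; ring
      rw [e1, yy_rec s k _ d hd0 hd1, if_neg hf, hpp]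
      conv_rhs => rw [hj', yy_rec s k _ d hd0 hd1, if_neg hf]

/-- the exceptional places in the blocks of level `k` -/
def bad (s : ℕ) : ℕ → ℕ → Prop
  | 0, _ => False
  | k + 1, r => r / P s k = 0 ∨ r / P s k = 2 ^ (k + s + 8) - 1 ∨ bad s k (r % P s k)

/-- the word without holes -/
def tp (s : ℕ) : ℕ → ℕ → Bool
  | 0, _ => false
  | k + 1, r => xor (tm (r / P s k / 2 ^ s)) (tp s k (r % P s k))

theorem tp_succ (s k r : ℕ) : tp s (k + 1) r = xor (tm (r / P s k / 2 ^ s)) (tp s k (r % P s k)) :=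
  rfl

theorem xx_good (s k : ℕ) : ∀ (J : ℤ) (r : ℕ), r < P s k → ¬ bad s k r →
    xx s (P s k * J + r) = xor (tp s k r) (yy s k J) := by
  induction k with
  | zero =>
    intro J r h1 _
    have : r = 0 := by
      have : P s 0 = 1 := rfl
      omega
    subst this
    simp [P, xx, tp]
  | succ k ih =>
    intro J r h1 hb
    have hP := P_pos s k
    unfold bad at hb
    push Not at hb
    obtain ⟨hb0, hb1, hb2⟩ := hb
    have hPs : P s (k + 1) = P s k * 2 ^ (k + s + 8) := rfl
    have hd1 : r / P s k < 2 ^ (k + s + 8) := by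
      rw [Nat.div_lt_iff_lt_mul hP, mul_comm]
      exact h1
    have e : (P s (k + 1) : ℤ) * J + r =
        P s k * (Q s k * J + (r / P s k : ℕ)) + (r % P s k : ℕ) := by
      have h2 := Nat.div_add_mod r (P s k)
      have h3 : (r : ℤ) = P s k * (r / P s k : ℕ) + (r % P s k : ℕ) := by exact_mod_cast h2.symm
      have h4 := P_succ_cast s k
      rw [h4]
      linear_combination h3
    rw [e, ih _ _ (Nat.mod_lt _ hP) hb2,
      yy_rec s k J _ (by positivity) (by unfold Q; exact_mod_cast hd1), if_neg]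
    · rw [Int.toNat_natCast, tp_succ]
      cases tm (r / P s k / 2 ^ s) <;> cases tp s k (r % P s k) <;> cases yy s (k + 1) J <;> rfl
    · unfold Q
      push Not
      refine ⟨by exact_mod_cast hb0, fun h => hb1 ?_⟩
      have : ((r / P s k : ℕ) : ℤ) + 1 = 2 ^ (k + s + 8) := by rw [h]; ring
      have h5 : r / P s k + 1 = 2 ^ (k + s + 8) := by exact_mod_cast this
      rw [← h5, Nat.add_sub_cancel]

end Pool.Agent.KS6_95.TZ
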