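import Mathlib
import Pool.Agent.KS6_95.TZ.Seq

/-! # Toeplitz sequences built from stretched Thue-Morse words: the words differ from their shifts -/

set_option autoImplicit false

open Finset

namespace Pool.Agent.KS6_95.TZ

open Pool.Agent.T6.H46.Toe (tm tm_zero tm_two_mul tm_two_mul_add_one tm_pow)

open Classical in
/-- the number of exceptional places -/
noncomputable def bc (s k : ℕ) : ℕ := ((range (P s k)).filter (fun r => bad s k r)).card

theorem bc_succ (s k : ℕ) : bc s (k + 1) ≤ 2 * P s k + 2 ^ (k + s + 8) * bc s k := by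
  classical
  have hP := P_pos s k
  set Qn : ℕ := 2 ^ (k + s + 8) with hQn
  have hsub : (range (P s (k + 1))).filter (fun r => bad s (k + 1) r) ⊆
      (range (P s k)) ∪ ((range (P s k)).image (fun t => P s k * (Qn - 1) + t) ∪
        ((range Qn) ×ˢ ((range (P s k)).filter (fun r => bad s k r))).image
          (fun p => P s k * p.1 + p.2)) := by
    intro r hr
    rw [mem_filter, mem_range] at hr
    obtain ⟨h1, h2⟩ := hr
    have hPs : P s (k + 1) = P s k * Qn := rfl
    have hd := Nat.div_add_mod r (P s k)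
    have hm := Nat.mod_lt r hP
    have hlt : r / P s k < Qn := by
      rw [Nat.div_lt_iff_lt_mul hP, mul_comm, ← hPs]
      exact h1
    unfold bad at h2
    rcases h2 with h | h | h
    · rw [mem_union]
      left
      rw [mem_range]
      rw [h] at hd
      omega
    · rw [mem_union, mem_union]
      right; left
      rw [mem_image]
      refine ⟨r % P s k, mem_range.2 hm, ?_⟩
      rw [← h]
      exact hd
    · rw [mem_union, mem_union]
      right; right
      rw [mem_image]
      refine ⟨(r / P s k, r % P s k), ?_, hd⟩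
      rw [mem_product]
      exact ⟨mem_range.2 hlt, mem_filter.2 ⟨mem_range.2 hm, h⟩⟩
  unfold bc
  refine (card_le_card hsub).trans ?_
  refine (card_union_le _ _).trans ?_
  have h2 := (card_union_le ((range (P s k)).image (fun t => P s k * (Qn - 1) + t))
    (((range Qn) ×ˢ ((range (P s k)).filter (fun r => bad s k r))).image
          (fun p => P s k * p.1 + p.2)))
  have h3 := card_image_le (s := range (P s k)) (f := fun t => P s k * (Qn - 1) + t)
  have h4 := card_image_le (s := (range Qn) ×ˢ ((range (P s k)).filter (fun r => bad s k r)))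
    (f := fun p => P s k * p.1 + p.2)
  rw [card_product, card_range] at h4
  rw [card_range] at h3 ⊢
  omega

theorem bc_le (s k : ℕ) : bc s k * (64 * 2 ^ s * 2 ^ k) + P s k ≤ P s k * 2 ^ k := by
  induction k with
  | zero =>
    have : bc s 0 = 0 := by
      classical
      unfold bc
      rw [card_eq_zero, filter_eq_empty_iff]
      intro r _ h
      exact h
    rw [this]
    simp
  | succ k ih =>
    have h1 := bc_succ s k
    have hPs : P s (k + 1) = P s k * 2 ^ (k + s + 8) := rfl
    have e7 : (2 : ℕ) ^ (k + s + 8) = 256 * 2 ^ s * 2 ^ k := by rw [pow_add, pow_add]; ring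
    have e1 : (2 : ℕ) ^ (k + 1) = 2 * 2 ^ k := by rw [pow_add]; ring
    rw [hPs, e7, e1]
    rw [e7] at h1
    set T : ℕ := 2 ^ k with hT
    set S : ℕ := 2 ^ s with hS
    have k1 := Nat.mul_le_mul_right (128 * S * T) h1
    have k2 := Nat.mul_le_mul_right (512 * S * T) ih
    nlinarith

theorem bc_le' (s k : ℕ) : 64 * 2 ^ s * bc s k ≤ P s k := by
  have h := bc_le s k
  have hT : 0 < 2 ^ k := by positivity
  have : (64 * 2 ^ s * bc s k) * 2 ^ k ≤ P s k * 2 ^ k := by nlinarith
  exact Nat.le_of_mul_le_mul_right this hT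

theorem tm_four (c : ℕ) : tm (4 * c) ≠ tm (4 * c + 1) ∧ tm (4 * c + 1) = tm (4 * c + 2) := by
  have h1 : tm (4 * c) = tm c := by
    rw [show 4 * c = 2 * (2 * c) by ring, tm_two_mul, tm_two_mul]
  have h2 : tm (4 * c + 1) = !tm c := by
    rw [show 4 * c + 1 = 2 * (2 * c) + 1 by ring, tm_two_mul_add_one, tm_two_mul]
  have h3 : tm (4 * c + 2) = !tm c := by
    rw [show 4 * c + 2 = 2 * (2 * c + 1) by ring, tm_two_mul, tm_two_mul_add_one]
  rw [h1, h2, h3]
  cases tm c <;> simp

theorem le_P (s k : ℕ) : k < P s k := by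
  obtain ⟨N, hN, hk⟩ := P_two_pow s k
  rw [hN]
  exact hk.trans_lt Nat.lt_two_pow_self

/-- the scale at which a shift is seen -/
theorem scale (s : ℕ) {n : ℕ} (hn : 0 < n) : ∃ j e : ℕ, e ≤ j + 6 ∧
    n < 2 ^ e * (2 ^ s * P s j) ∧ 2 ^ e * (2 ^ s * P s j) ≤ 4 * 2 ^ s * n := by
  have hex : ∃ k, n < P s (k + 1) := ⟨n, (Nat.lt_succ_self n).trans (le_P s (n + 1))⟩
  classical
  obtain ⟨k, hk1, hk2⟩ : ∃ k, P s k ≤ n ∧ n < P s (k + 1) := by
    refine ⟨Nat.find hex, ?_, Nat.find_spec hex⟩
    rcases Nat.eq_zero_or_pos (Nat.find hex) with h | h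
    · rw [h]; exact hn
    · have := Nat.find_min hex (m := Nat.find hex - 1) (by omega)
      rw [Nat.sub_add_cancel h] at this
      omega
  have hP := P_pos s k
  have hq1 : 1 ≤ n / P s k := (Nat.one_le_div_iff hP).2 hk1
  have hl1 : 2 ^ (Nat.log 2 (n / P s k)) ≤ n / P s k := Nat.pow_log_le_self 2 (by omega)
  have hl2 : n / P s k < 2 ^ (Nat.log 2 (n / P s k) + 1) :=
    Nat.lt_pow_succ_log_self (by norm_num) _
  set l := Nat.log 2 (n / P s k) with hl
  have a1 : 2 ^ l * P s k ≤ n := (Nat.le_div_iff_mul_le hP).1 hl1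
  have a2 : n < 2 ^ (l + 1) * P s k := (Nat.div_lt_iff_lt_mul hP).1 hl2
  have hS : 0 < 2 ^ s := by positivity
  by_cases c1 : l + 1 ≤ s
  · refine ⟨k, 0, by omega, ?_, ?_⟩
    · rw [pow_zero, one_mul]
      exact a2.trans_le (Nat.mul_le_mul_right _ (Nat.pow_le_pow_right (by norm_num) c1))
    · rw [pow_zero, one_mul]
      nlinarith [Nat.mul_le_mul_left (2 ^ s) hk1]
  by_cases c2 : l + 1 - s ≤ k + 6
  · have e : 2 ^ (l + 1 - s) * (2 ^ s * P s k) = 2 ^ (l + 1) * P s k := by
      rw [← mul_assoc, ← pow_add, Nat.sub_add_cancel (by omega)]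
    refine ⟨k, l + 1 - s, c2, ?_, ?_⟩
    · rw [e]; exact a2
    · rw [e, pow_succ]
      nlinarith
  · refine ⟨k + 1, 0, by omega, ?_, ?_⟩
    · rw [pow_zero, one_mul]
      nlinarith [P_pos s (k + 1)]
    · rw [pow_zero, one_mul, P_succ]
      have h5 : 2 ^ (k + s + 8) ≤ 4 * 2 ^ l := by
        calc 2 ^ (k + s + 8) ≤ 2 ^ (l + 2) := Nat.pow_le_pow_right (by norm_num) (by omega)
          _ = 4 * 2 ^ l := by rw [pow_add]; ring
      calc 2 ^ s * (P s k * 2 ^ (k + s + 8)) ≤ 2 ^ s * (P s k * (4 * 2 ^ l)) :=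
            Nat.mul_le_mul_left _ (Nat.mul_le_mul_left _ h5)
        _ = 4 * 2 ^ s * (2 ^ l * P s k) := by ring
        _ ≤ 4 * 2 ^ s * n := Nat.mul_le_mul_left _ a1

theorem tp_split (s j e h u : ℕ) (hu : u < 2 ^ e * (2 ^ s * P s j)) :
    tp s (j + 1) (2 ^ e * (2 ^ s * P s j) * h + u) =
      xor (tm h) (xor (tm (u / P s j / 2 ^ s)) (tp s j (u % P s j))) := by
  have hP := P_pos s j
  have hS : 0 < 2 ^ s := by positivity
  have e1 : (2 ^ e * (2 ^ s * P s j) * h + u) / P s j / 2 ^ s = 2 ^ e * h + u / P s j / 2 ^ s := by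
    rw [show 2 ^ e * (2 ^ s * P s j) * h + u = P s j * (2 ^ s * (2 ^ e * h)) + u by ring,
      Nat.mul_add_div hP, Nat.mul_add_div hS]
  have e2 : (2 ^ e * (2 ^ s * P s j) * h + u) % P s j = u % P s j := by
    rw [show 2 ^ e * (2 ^ s * P s j) * h + u = P s j * (2 ^ s * (2 ^ e * h)) + u by ring,
      Nat.mul_add_mod]
  have e3 : u / P s j / 2 ^ s < 2 ^ e := by
    rw [Nat.div_lt_iff_lt_mul hS, Nat.div_lt_iff_lt_mul hP, mul_assoc]
    exact hu
  rw [tp_succ, e1, e2, tm_pow e h _ e3]
  cases tm h <;> cases tm (u / P s j / 2 ^ s) <;> cases tp s j (u % P s j) <;> rfl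

open Classical in
/-- places where the word differs from its shift -/
theorem tp_count (s : ℕ) {n : ℕ} (hn : 0 < n) : ∃ k, P s k ≤ 16 * 2 ^ s *
    ((range (P s k)).filter (fun r => r + n < P s k ∧ tp s k r ≠ tp s k (r + n))).card := by
  obtain ⟨j, e, he, hD1, hD2⟩ := scale s hn
  obtain ⟨D, hD⟩ : ∃ D, D = 2 ^ e * (2 ^ s * P s j) := ⟨_, rfl⟩
  have hsp := tp_split s j e
  rw [← hD] at hD1 hD2 hsp
  have hDpos : 0 < D := by omega
  refine ⟨j + 1, ?_⟩
  obtain ⟨H, hH⟩ : ∃ H, H = 2 ^ (j + 6 - e) := ⟨_, rfl⟩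
  have hPe : P s (j + 1) = D * (4 * H) := by
    have h1 : 2 ^ e * H = 2 ^ (j + 6) := by rw [hH, ← pow_add]; congr 1; omega
    calc P s (j + 1) = P s j * 2 ^ (j + s + 8) := rfl
      _ = P s j * 2 ^ s * 4 * 2 ^ (j + 6) := by rw [pow_add, pow_add, pow_add]; ring
      _ = P s j * 2 ^ s * 4 * (2 ^ e * H) := by rw [h1]
      _ = D * (4 * H) := by rw [hD]; ring
  have hch : ∀ p : ℕ × ℕ, ∃ i : ℕ, p.2 < n → i < 2 ∧
      tp s (j + 1) (D * (4 * p.1 + i) + (D - n + p.2)) ≠
        tp s (j + 1) (D * (4 * p.1 + i) + (D - n + p.2) + n) := by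
    rintro ⟨c, u⟩
    by_cases hu : u < n
    · have hu : u < n := hu
      obtain ⟨t1, t2⟩ := tm_four c
      have f1 : ∀ h, tp s (j + 1) (D * h + (D - n + u)) = _ := fun h => hsp h (D - n + u) (by omega)
      have f2 : ∀ h, tp s (j + 1) (D * h + (D - n + u) + n) =
          xor (tm (h + 1)) (xor (tm (u / P s j / 2 ^ s)) (tp s j (u % P s j))) := fun h => by
        have e1 : D * h + (D - n + u) + n = D * (h + 1) + u := by
          rw [mul_add, mul_one]; omega
        rw [e1]
        exact hsp (h + 1) u (by omega)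
      by_cases hc : xor (tm ((D - n + u) / P s j / 2 ^ s)) (tp s j ((D - n + u) % P s j)) =
          xor (tm (u / P s j / 2 ^ s)) (tp s j (u % P s j))
      · refine ⟨0, fun _ => ⟨by norm_num, ?_⟩⟩
        dsimp only
        rw [f1, f2, hc, add_zero]
        revert t1
        cases tm (4 * c) <;> cases tm (4 * c + 1) <;>
          cases xor (tm (u / P s j / 2 ^ s)) (tp s j (u % P s j)) <;> simp
      · refine ⟨1, fun _ => ⟨by norm_num, ?_⟩⟩
        dsimp only
        rw [f1, f2, show 4 * c + 1 + 1 = 4 * c + 2 by ring, t2]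
        revert hc
        cases tm (4 * c + 2) <;>
          cases xor (tm (u / P s j / 2 ^ s)) (tp s j (u % P s j)) <;>
          cases xor (tm ((D - n + u) / P s j / 2 ^ s)) (tp s j ((D - n + u) % P s j)) <;> simp
    · exact ⟨0, fun h => absurd h hu⟩
  choose i hi using hch
  have key : ((range H) ×ˢ (range n)).card ≤
      ((range (P s (j + 1))).filter (fun r => r + n < P s (j + 1) ∧
        tp s (j + 1) r ≠ tp s (j + 1) (r + n))).card := by
    apply card_le_card_of_injOn (fun p => D * (4 * p.1 + i p) + (D - n + p.2))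
    · intro p hp
      rw [mem_coe, mem_product, mem_range, mem_range] at hp
      obtain ⟨h1, h2⟩ := hi p hp.2
      have h3 : D * (4 * p.1 + i p) + (D - n + p.2) + n < P s (j + 1) := by
        rw [hPe]
        have h4 : 4 * p.1 + i p + 2 ≤ 4 * H := by omega
        have h5 := Nat.mul_le_mul_left D h4
        have h6 := hp.2
        have h7 : D * (4 * p.1 + i p + 2) = D * (4 * p.1 + i p) + D + D := by ring
        omega
      rw [mem_coe, mem_filter, mem_range]
      exact ⟨by dsimp only; omega, h3, h2⟩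
    · intro p hp q hq h
      rw [mem_coe, mem_product, mem_range, mem_range] at hp hq
      simp only at h
      have up : D - n + p.2 < D := by omega
      have uq : D - n + q.2 < D := by omega
      have m1 : (D * (4 * p.1 + i p) + (D - n + p.2)) % D = D - n + p.2 := by
        rw [Nat.mul_add_mod, Nat.mod_eq_of_lt up]
      have m2 : (D * (4 * q.1 + i q) + (D - n + q.2)) % D = D - n + q.2 := by
        rw [Nat.mul_add_mod, Nat.mod_eq_of_lt uq]
      have d1 : (D * (4 * p.1 + i p) + (D - n + p.2)) / D = 4 * p.1 + i p := by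
        rw [Nat.mul_add_div hDpos, Nat.div_eq_of_lt up, add_zero]
      have d2 : (D * (4 * q.1 + i q) + (D - n + q.2)) / D = 4 * q.1 + i q := by
        rw [Nat.mul_add_div hDpos, Nat.div_eq_of_lt uq, add_zero]
      have h1 := (hi p hp.2).1
      have h2 := (hi q hq.2).1
      rw [h] at m1 d1
      rw [m1] at m2
      rw [d1] at d2
      exact Prod.ext (by omega) (by omega)
  rw [card_product, card_range, card_range] at key
  have k1 := Nat.mul_le_mul_left (16 * 2 ^ s) key
  refine le_trans ?_ k1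
  rw [hPe]
  calc D * (4 * H) = 4 * H * D := by ring
    _ ≤ 4 * H * (4 * 2 ^ s * n) := Nat.mul_le_mul_left _ hD2
    _ = 16 * 2 ^ s * (H * n) := by ring

open Classical in
theorem xx_block_ne (s : ℕ) {n : ℕ} (hn : 0 < n) : ∃ k, ∀ J : ℤ, P s k ≤ 32 * 2 ^ s *
    ((range (P s k)).filter (fun r : ℕ => xx s (P s k * J + r) ≠ xx s (P s k * J + r + n))).card := by
  obtain ⟨k, hk⟩ := tp_count s hn
  refine ⟨k, fun J => ?_⟩
  set S := (range (P s k)).filter (fun r => r + n < P s k ∧ tp s k r ≠ tp s k (r + n)) with hS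
  set B1 := (range (P s k)).filter (fun r => bad s k r) with hB1
  set B2 := S.filter (fun r => bad s k (r + n)) with hB2
  have hB1c : 64 * 2 ^ s * B1.card ≤ P s k := bc_le' s k
  have hB2c : B2.card ≤ B1.card := by
    apply card_le_card_of_injOn (fun r => r + n)
    · intro r hr
      rw [mem_coe, hB2, mem_filter, hS, mem_filter, mem_range] at hr
      rw [mem_coe, hB1, mem_filter, mem_range]
      exact ⟨hr.1.2.1, hr.2⟩
    · intro a _ b _ h
      simpa using h
  have hsub : S ⊆ B1 ∪ (B2 ∪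
      (range (P s k)).filter (fun r : ℕ => xx s (P s k * J + r) ≠ xx s (P s k * J + r + n))) := by
    intro r hr
    have hr' := hr
    rw [hS, mem_filter, mem_range] at hr
    obtain ⟨h1, h2, h3⟩ := hr
    by_cases hb1 : bad s k r
    · rw [mem_union]; left
      rw [hB1, mem_filter, mem_range]
      exact ⟨h1, hb1⟩
    by_cases hb2 : bad s k (r + n)
    · rw [mem_union, mem_union]; right; left
      rw [hB2, mem_filter]
      exact ⟨hr', hb2⟩
    · rw [mem_union, mem_union]; right; right
      rw [mem_filter, mem_range]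
      refine ⟨h1, ?_⟩
      have e1 := xx_good s k J r h1 hb1
      have e2 := xx_good s k J (r + n) h2 hb2
      push_cast at e2
      rw [← add_assoc] at e2
      rw [e1, e2]
      intro h
      apply h3
      revert h
      cases tp s k r <;> cases tp s k (r + n) <;> cases yy s k J <;> simp
  have h4 := (card_le_card hsub).trans (card_union_le _ _)
  have h5 := card_union_le B2
    ((range (P s k)).filter (fun r : ℕ => xx s (P s k * J + r) ≠ xx s (P s k * J + r + n)))
  set R := ((range (P s k)).filter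
    (fun r : ℕ => xx s (P s k * J + r) ≠ xx s (P s k * J + r + n))).card
  have h6 : S.card ≤ 2 * B1.card + R := by omega
  have h7 := Nat.mul_le_mul_left (16 * 2 ^ s) h6
  nlinarith

open Classical in
/-- the sequence differs from its shift by `n` at many places of every window -/
theorem xx_ne (s : ℕ) {n : ℕ} (hn : 0 < n) : ∃ L : ℕ, 0 < L ∧ ∀ h : ℤ, L ≤ 64 * 2 ^ s *
    ((range L).filter (fun i : ℕ => xx s (h + i) ≠ xx s (h + i + n))).card := by
  obtain ⟨k, hk⟩ := xx_block_ne s hn
  have hP := P_pos s k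
  refine ⟨2 * P s k, by positivity, fun h => ?_⟩
  have hPz : (0 : ℤ) < P s k := by exact_mod_cast hP
  obtain ⟨J, t, hJ, ht⟩ : ∃ (J : ℤ) (t : ℕ), P s k * J = h + t ∧ t < P s k := by
    refine ⟨-((-h) / P s k), ((-h) % P s k).toNat, ?_, ?_⟩
    · rw [Int.toNat_of_nonneg (Int.emod_nonneg _ hPz.ne')]
      have := Int.mul_ediv_add_emod (-h) (P s k)
      linear_combination -this
    · have := Int.emod_lt_of_pos (-h) hPz
      have h2 := Int.emod_nonneg (-h) hPz.ne'
      omega
  have key : ((range (P s k)).filter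
      (fun r : ℕ => xx s (P s k * J + r) ≠ xx s (P s k * J + r + n))).card ≤
      ((range (2 * P s k)).filter (fun i : ℕ => xx s (h + i) ≠ xx s (h + i + n))).card := by
    apply card_le_card_of_injOn (fun r => r + t)
    · intro r hr
      rw [mem_coe, mem_filter, mem_range] at hr
      rw [mem_coe, mem_filter, mem_range]
      refine ⟨by dsimp only; omega, ?_⟩
      have e : h + ((r + t : ℕ) : ℤ) = P s k * J + r := by rw [hJ]; push_cast; ring
      rw [e]
      exact hr.2
    · intro a _ b _ hab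
      simpa using hab
  have h1 := hk J
  have h2 := Nat.mul_le_mul_left (64 * 2 ^ s) key
  have h3 := Nat.mul_le_mul_left 2 h1
  calc 2 * P s k ≤ 2 * (32 * 2 ^ s * _) := h3
    _ = 64 * 2 ^ s * _ := by ring
    _ ≤ _ := h2

end Pool.Agent.KS6_95.TZ
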