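import Mathlib
import Pool.Agent.KS6_95.TZ.Count
import Pool.Graph.R_pool_sql_team_seeded_47a924f7.T6.H46.Toe.Count

/-! # Toeplitz sequences built from stretched Thue-Morse words: most blocks repeat -/

set_option autoImplicit false

open Finset

namespace Pool.Agent.KS6_95.TZ

open Pool.Agent.T6.H46.Toe (tm tm_zero tm_two_mul tm_two_mul_add_one tm_pow Loc)

/-- the translate of the sequence -/
def tx (s : ℕ) (h : ℤ) : ℤ → Bool := fun a => xx s (h + a)

open Classical in
theorem aligned (s k m M : ℕ) (b0 : ℤ) {C : (ℤ → Bool) → Prop} (hC : Loc m C) :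
    (2 ^ s - 1) * ((range (P s (k + 1) * M)).filter
        (fun i : ℕ => C (tx s (P s (k + 1) * b0 + i)))).card ≤
      2 ^ s * ((range (P s (k + 1) * M)).filter (fun i : ℕ => C (tx s (P s (k + 1) * b0 + i)) ∧
        C (tx s (P s (k + 1) * b0 + i + P s k)))).card +
      2 ^ s * (M * (2 * (2 ^ s * P s k) + 2 * m * 2 ^ (k + s + 8))) := by
  obtain ⟨p, hp⟩ : ∃ p, p = P s k := ⟨_, rfl⟩
  obtain ⟨G, hG⟩ : ∃ G : ℕ, G = 2 ^ s := ⟨_, rfl⟩
  obtain ⟨R, hR⟩ : ∃ R : ℕ, R = 2 ^ (k + 8) := ⟨_, rfl⟩
  obtain ⟨PP, hPPd⟩ : ∃ PP, PP = P s (k + 1) := ⟨_, rfl⟩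
  have hP : 0 < p := by rw [hp]; exact P_pos s k
  have hGp : 0 < G := by rw [hG]; positivity
  have hRp : 0 < R := by rw [hR]; positivity
  have hQn : 2 ^ (k + s + 8) = G * R := by rw [hG, hR, ← pow_add]; congr 1; ring
  have hPP : PP = p * (G * R) := by rw [hPPd, P_succ, hQn, hp]
  have hQ : Q s k = ((G * R : ℕ) : ℤ) := by unfold Q; rw [← hQn]; push_cast; ring
  have hty : ∀ c e : ℕ, c % R ≠ 0 → c % R + 1 < R → e < G →
      yy s k (Q s k * b0 + ((G * c + e : ℕ) : ℤ)) =
        xor (tm (c % R)) (yy s (k + 1) (b0 + (c / R : ℕ))) := by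
    intro c e h1 h2 h3
    rw [hR] at h1 h2
    rw [hG] at h3
    have := yy_group s k (b0 + (c / R : ℕ)) (c % 2 ^ (k + 8)) e h1 h2 h3
    rw [← hG] at this
    rw [hR] at this ⊢
    rw [← this]
    congr 1
    rw [hQ, hR]
    have h4 : ((c : ℕ) : ℤ) = (2 ^ (k + 8) : ℕ) * (c / 2 ^ (k + 8) : ℕ) + (c % 2 ^ (k + 8) : ℕ) := by
      exact_mod_cast (Nat.div_add_mod c (2 ^ (k + 8))).symm
    push_cast at h4 ⊢
    linear_combination (G : ℤ) * h4
  have cmp : ∀ c r e e' : ℕ, (m ≤ r ∧ r + m < p ∧ c % R ≠ 0 ∧ c % R + 1 < R) → e < G → e' < G →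
      (C (tx s (PP * b0 + ((p * (G * c + e) + r : ℕ) : ℤ))) ↔
        C (tx s (PP * b0 + ((p * (G * c + e') + r : ℕ) : ℤ)))) := by
    rintro c r e e' ⟨h1, h2, h3, h4⟩ he he'
    apply hC
    intro a ha1 ha2
    have E : ∀ e : ℕ, (PP * b0 + ((p * (G * c + e) + r : ℕ) : ℤ) + a : ℤ) =
        P s k * (Q s k * b0 + ((G * c + e : ℕ) : ℤ)) + (r + a) := by
      intro e
      rw [hPPd, P_succ_cast, ← hp]
      push_cast
      ring
    unfold tx
    rw [E, E]
    apply xx_block s k _ _ (by rw [hty c e h3 h4 he, hty c e' h3 h4 he'])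
    · omega
    · rw [← hp]; omega
  rw [← hPPd, ← hG, ← hp, hQn]
  set W := (range (PP * M)).filter (fun i : ℕ => C (tx s (PP * b0 + i))) with hW
  set W' := (range (PP * M)).filter (fun i : ℕ => C (tx s (PP * b0 + i)) ∧
        C (tx s (PP * b0 + i + p))) with hW'
  set W1 := W.filter (fun i => m ≤ i % p ∧ i % p + m < p ∧ (i / p / G) % R ≠ 0 ∧
    (i / p / G) % R + 1 < R) with hW1
  set W2 := W.filter (fun i => ¬ (m ≤ i % p ∧ i % p + m < p ∧ (i / p / G) % R ≠ 0 ∧
    (i / p / G) % R + 1 < R)) with hW2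
  have hsplit : W.card = W1.card + W2.card := by
    rw [hW1, hW2, card_filter_add_card_filter_not]
  have hdec : ∀ i : ℕ, p * (G * (i / p / G) + (i / p) % G) + i % p = i := by
    intro i
    rw [Nat.div_add_mod, Nat.div_add_mod]
  have hlt1 : ∀ i : ℕ, i < PP * M → i / p < G * R * M := by
    intro i hi
    rw [Nat.div_lt_iff_lt_mul hP]
    calc i < PP * M := hi
      _ = G * R * M * p := by rw [hPP]; ring
  have hlt2 : ∀ i : ℕ, i < PP * M → i / p / G < R * M := by
    intro i hi
    rw [Nat.div_lt_iff_lt_mul hGp]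
    calc i / p < G * R * M := hlt1 i hi
      _ = R * M * G := by ring
  -- the exceptional places
  have h2 : W2.card ≤ M * (2 * (G * p) + 2 * m * (G * R)) := by
    have hsub : W2 ⊆ ((range (PP * M)).filter (fun i => ¬ (m ≤ i % p ∧ i % p + m < p))) ∪
        ((range (PP * M)).filter (fun i => ¬ ((i / p / G) % R ≠ 0 ∧ (i / p / G) % R + 1 < R))) := by
      intro i hi
      rw [hW2, mem_filter, hW, mem_filter] at hi
      rw [mem_union, mem_filter, mem_filter]
      by_cases h : m ≤ i % p ∧ i % p + m < p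
      · exact Or.inr ⟨hi.1.1, fun h' => hi.2 ⟨h.1, h.2, h'.1, h'.2⟩⟩
      · exact Or.inl ⟨hi.1.1, h⟩
    have c1 : ((range (PP * M)).filter (fun i => ¬ (m ≤ i % p ∧ i % p + m < p))).card ≤
        G * R * M * (2 * m) := by
      have : ((range (PP * M)).filter (fun i => ¬ (m ≤ i % p ∧ i % p + m < p))).card ≤
          ((range (G * R * M)) ×ˢ ((range m) ∪ (Ico (p - m) p))).card := by
        apply card_le_card_of_injOn (fun i => (i / p, i % p))
        · intro i hi
          rw [mem_coe, mem_filter, mem_range] at hi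
          obtain ⟨h1, h3⟩ := hi
          rw [mem_coe, mem_product, mem_range, mem_union, mem_range, mem_Ico]
          have hm := Nat.mod_lt i hP
          refine ⟨hlt1 i h1, ?_⟩
          dsimp only
          by_contra hcon
          push Not at hcon
          apply h3
          refine ⟨hcon.1, ?_⟩
          by_contra h4
          have := hcon.2 (by omega)
          omega
        · intro a _ b _ hab
          simp only [Prod.mk.injEq] at hab
          have e1 := Nat.div_add_mod a p
          have e2 := Nat.div_add_mod b p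
          rw [hab.1, hab.2] at e1
          omega
      refine this.trans ?_
      rw [card_product, card_range]
      have h5 := card_union_le (range m) (Ico (p - m) p)
      rw [card_range, Nat.card_Ico] at h5
      exact Nat.mul_le_mul_left _ (by omega)
    have c2 : ((range (PP * M)).filter
        (fun i => ¬ ((i / p / G) % R ≠ 0 ∧ (i / p / G) % R + 1 < R))).card ≤ (M * 2) * (G * p) := by
      have : ((range (PP * M)).filter
          (fun i => ¬ ((i / p / G) % R ≠ 0 ∧ (i / p / G) % R + 1 < R))).card ≤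
          (((range M) ×ˢ ({0, R - 1} : Finset ℕ)) ×ˢ ((range G) ×ˢ (range p))).card := by
        apply card_le_card_of_injOn (fun i => (((i / p / G) / R, (i / p / G) % R), ((i / p) % G, i % p)))
        · intro i hi
          rw [mem_coe, mem_filter, mem_range] at hi
          obtain ⟨h1, h3⟩ := hi
          have h4 := Nat.mod_lt (i / p / G) hRp
          simp only [mem_coe, mem_product, mem_range, mem_insert, mem_singleton]
          refine ⟨⟨?_, ?_⟩, Nat.mod_lt _ hGp, Nat.mod_lt _ hP⟩
          · rw [Nat.div_lt_iff_lt_mul hRp, mul_comm]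
            exact hlt2 i h1
          · omega
        · intro a _ b _ hab
          simp only [Prod.mk.injEq] at hab
          obtain ⟨⟨a1, a2⟩, a3, a4⟩ := hab
          have e1 := Nat.div_add_mod (a / p / G) R
          have e2 := Nat.div_add_mod (b / p / G) R
          rw [a1, a2, e2] at e1
          rw [← hdec a, ← hdec b, ← e1, a3, a4]
      refine this.trans ?_
      rw [card_product, card_product, card_product, card_range, card_range, card_range]
      have : ({0, R - 1} : Finset ℕ).card ≤ 2 := card_le_two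
      gcongr
    have c3 := (card_le_card hsub).trans (card_union_le _ _)
    calc W2.card ≤ G * R * M * (2 * m) + (M * 2) * (G * p) := c3.trans (Nat.add_le_add c1 c2)
      _ = _ := by ring
  set K := ((range (R * M)) ×ˢ (range p)).filter (fun x => (m ≤ x.2 ∧ x.2 + m < p ∧ x.1 % R ≠ 0 ∧
    x.1 % R + 1 < R) ∧ C (tx s (PP * b0 + ((p * (G * x.1 + 0) + x.2 : ℕ) : ℤ)))) with hK
  have h1 : W1.card ≤ K.card * G := by
    have : W1.card ≤ (K ×ˢ range G).card := by
      apply card_le_card_of_injOn (fun i => ((i / p / G, i % p), (i / p) % G))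
      · intro i hi
        rw [mem_coe, hW1, mem_filter, hW, mem_filter, mem_range] at hi
        obtain ⟨⟨h1, h3⟩, h4⟩ := hi
        simp only [mem_coe, mem_product, hK, mem_filter, mem_range]
        refine ⟨⟨⟨hlt2 i h1, Nat.mod_lt _ hP⟩, h4, ?_⟩, Nat.mod_lt _ hGp⟩
        rw [cmp (i / p / G) (i % p) 0 ((i / p) % G) h4 hGp (Nat.mod_lt _ hGp), hdec]
        exact h3
      · intro a _ b _ hab
        simp only [Prod.mk.injEq] at hab
        obtain ⟨⟨a1, a2⟩, a3⟩ := hab
        rw [← hdec a, ← hdec b, a1, a2, a3]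
    rwa [card_product, card_range] at this
  have h3 : K.card * (G - 1) ≤ W'.card := by
    have : (K ×ˢ range (G - 1)).card ≤ W'.card := by
      apply card_le_card_of_injOn (fun x => p * (G * x.1.1 + x.2) + x.1.2)
      · rintro ⟨⟨c, r⟩, e⟩ hx
        simp only [mem_coe, mem_product, hK, mem_filter, mem_range] at hx
        obtain ⟨⟨⟨hc, hr⟩, h4, h5⟩, he⟩ := hx
        simp only [mem_coe, hW', mem_filter, mem_range]
        refine ⟨?_, ?_, ?_⟩
        · have a1 : G * c + e + 1 ≤ G * (R * M) := by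
            have := Nat.mul_le_mul_left G hc
            have e3 : G * (c + 1) = G * c + G := by ring
            rw [Nat.succ_eq_add_one, e3] at this
            omega
          have a2 := Nat.mul_le_mul_left p a1
          have a3 : p * (G * c + e + 1) = p * (G * c + e) + p := by ring
          have a4 : p * (G * (R * M)) = PP * M := by rw [hPP]; ring
          omega
        · exact (cmp c r 0 e h4 hGp (by omega)).1 h5
        · have E : (PP * b0 + ((p * (G * c + e) + r : ℕ) : ℤ) + p : ℤ) =
              PP * b0 + ((p * (G * c + (e + 1)) + r : ℕ) : ℤ) := by push_cast; ring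
          rw [E]
          exact (cmp c r 0 (e + 1) h4 hGp (by omega)).1 h5
      · rintro ⟨⟨c, r⟩, e⟩ hx ⟨⟨c', r'⟩, e'⟩ hx' hab
        simp only [mem_coe, mem_product, hK, mem_filter, mem_range] at hx hx'
        obtain ⟨⟨⟨hc, hr⟩, -⟩, he⟩ := hx
        obtain ⟨⟨⟨hc', hr'⟩, -⟩, he'⟩ := hx'
        simp only at hab
        have m1 := congrArg (fun x => x % p) hab
        have d1 := congrArg (fun x => x / p) hab
        simp only [Nat.mul_add_mod, Nat.mul_add_div hP] at m1 d1
        rw [Nat.mod_eq_of_lt hr, Nat.mod_eq_of_lt hr'] at m1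
        rw [Nat.div_eq_of_lt hr, Nat.div_eq_of_lt hr', add_zero, add_zero] at d1
        have m2 := congrArg (fun x => x % G) d1
        have d2 := congrArg (fun x => x / G) d1
        simp only [Nat.mul_add_mod, Nat.mul_add_div hGp] at m2 d2
        rw [Nat.mod_eq_of_lt (by omega), Nat.mod_eq_of_lt (by omega)] at m2
        rw [Nat.div_eq_of_lt (by omega), Nat.div_eq_of_lt (by omega), add_zero, add_zero] at d2
        rw [m1, m2, d2]
    rwa [card_product, card_range] at this
  obtain ⟨E, hE⟩ : ∃ E, E = M * (2 * (G * p) + 2 * m * (G * R)) := ⟨_, rfl⟩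
  rw [← hE] at h2 ⊢
  calc (G - 1) * W.card = (G - 1) * W1.card + (G - 1) * W2.card := by rw [hsplit, mul_add]
    _ ≤ (G - 1) * (K.card * G) + (G - 1) * E :=
        Nat.add_le_add (Nat.mul_le_mul_left _ h1) (Nat.mul_le_mul_left _ h2)
    _ = G * (K.card * (G - 1)) + (G - 1) * E := by ring
    _ ≤ G * W'.card + G * E :=
        Nat.add_le_add (Nat.mul_le_mul_left _ h3) (Nat.mul_le_mul_right _ (Nat.sub_le _ _))

open Classical in
/-- windows of arbitrary position -/
theorem window (s k m M : ℕ) (h : ℤ) {C : (ℤ → Bool) → Prop} (hC : Loc m C) :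
    (2 ^ s - 1) * ((range (P s (k + 1) * (M + 1))).filter (fun i : ℕ => C (tx s (h + i)))).card ≤
      2 ^ s * ((range (P s (k + 1) * (M + 1))).filter (fun i : ℕ => C (tx s (h + i)) ∧
        C (tx s (h + i + P s k)))).card +
      2 ^ s * (M * (2 * (2 ^ s * P s k) + 2 * m * 2 ^ (k + s + 8)) + P s (k + 1)) := by
  have hP := P_pos s (k + 1)
  have hPz : (0 : ℤ) < P s (k + 1) := by exact_mod_cast hP
  obtain ⟨b0, t, hJ, ht⟩ : ∃ (J : ℤ) (t : ℕ), P s (k + 1) * J = h + t ∧ t < P s (k + 1) := by
    refine ⟨-((-h) / P s (k + 1)), ((-h) % P s (k + 1)).toNat, ?_, ?_⟩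
    · rw [Int.toNat_of_nonneg (Int.emod_nonneg _ hPz.ne')]
      have := Int.mul_ediv_add_emod (-h) (P s (k + 1))
      linear_combination -this
    · have := Int.emod_lt_of_pos (-h) hPz
      have h2 := Int.emod_nonneg (-h) hPz.ne'
      omega
  have hal := aligned s k m M b0 hC
  obtain ⟨PP, hPPd⟩ : ∃ PP, PP = P s (k + 1) := ⟨_, rfl⟩
  rw [← hPPd] at hP hJ ht hal ⊢
  set A := (range (PP * M)).filter (fun i : ℕ => C (tx s (PP * b0 + i))) with hA
  set A' := (range (PP * M)).filter (fun i : ℕ => C (tx s (PP * b0 + i)) ∧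
        C (tx s (PP * b0 + i + P s k))) with hA'
  have hmul : PP * (M + 1) = PP * M + PP := by ring
  have k1 : ((range (PP * (M + 1))).filter (fun i : ℕ => C (tx s (h + i)))).card ≤
      A.card + PP := by
    have hs : (range (PP * (M + 1))).filter (fun i : ℕ => C (tx s (h + i))) ⊆
        A.image (fun i => i + t) ∪ (range t ∪ Ico (PP * M + t) (PP * (M + 1))) := by
      intro i hi
      rw [mem_filter, mem_range] at hi
      rw [mem_union, mem_union, mem_range, mem_Ico, mem_image]
      by_cases h1 : i < t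
      · right; left; exact h1
      by_cases h2 : PP * M + t ≤ i
      · right; right; exact ⟨h2, hi.1⟩
      · left
        refine ⟨i - t, ?_, by omega⟩
        rw [hA, mem_filter, mem_range]
        refine ⟨by omega, ?_⟩
        have e : (PP * b0 + ((i - t : ℕ) : ℤ) : ℤ) = h + i := by
          rw [hJ, Nat.cast_sub (by omega)]; ring
        rw [e]
        exact hi.2
    have a1 := card_le_card hs
    have a2 := card_union_le (A.image (fun i => i + t))
      (range t ∪ Ico (PP * M + t) (PP * (M + 1)))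
    have a3 := card_union_le (range t) (Ico (PP * M + t) (PP * (M + 1)))
    have a4 : (A.image (fun i => i + t)).card ≤ A.card := card_image_le
    rw [card_range, Nat.card_Ico] at a3
    omega
  have k2 : A'.card ≤ ((range (PP * (M + 1))).filter (fun i : ℕ => C (tx s (h + i)) ∧
        C (tx s (h + i + P s k)))).card := by
    apply card_le_card_of_injOn (fun i => i + t)
    · intro i hi
      rw [mem_coe, mem_filter, mem_range] at hi
      rw [mem_coe, mem_filter, mem_range]
      have e : h + ((i + t : ℕ) : ℤ) = PP * b0 + i := by rw [hJ]; push_cast; ring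
      refine ⟨by dsimp only; omega, ?_⟩
      rw [e]
      exact hi.2
    · intro a _ b _ hab
      simpa using hab
  set X := ((range (PP * (M + 1))).filter (fun i : ℕ => C (tx s (h + i)))).card
  set Y := ((range (PP * (M + 1))).filter (fun i : ℕ => C (tx s (h + i)) ∧
        C (tx s (h + i + P s k)))).card
  obtain ⟨E, hE⟩ : ∃ E, E = M * (2 * (2 ^ s * P s k) + 2 * m * 2 ^ (k + s + 8)) := ⟨_, rfl⟩
  rw [← hE] at hal ⊢
  calc (2 ^ s - 1) * X ≤ (2 ^ s - 1) * (A.card + PP) := Nat.mul_le_mul_left _ k1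
    _ = (2 ^ s - 1) * A.card + (2 ^ s - 1) * PP := by ring
    _ ≤ (2 ^ s * A'.card + 2 ^ s * E) + 2 ^ s * PP :=
        Nat.add_le_add hal (Nat.mul_le_mul_right _ (Nat.sub_le _ _))
    _ = 2 ^ s * A'.card + 2 ^ s * (E + PP) := by ring
    _ ≤ 2 ^ s * Y + 2 ^ s * (E + PP) := Nat.add_le_add_right (Nat.mul_le_mul_left _ k2) _

end Pool.Agent.KS6_95.TZ
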