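import Mathlib
import Pool.Agent.KS6_95.TZ.Win
import Pool.Graph.R_pool_sql_team_seeded_47a924f7.T6.H46.Toe.Meas

/-! # Toeplitz sequences built from stretched Thue-Morse words: invariant measures -/

set_option autoImplicit false

open Finset MeasureTheory Filter Topology

namespace Pool.Agent.KS6_95.TZ

open Pool.Agent.T6.H46.Toe (Loc sh sh_iter sh_cont cnt cnt_eq integrate measurable_ne loc_open AA
  AA_alg AA_gen)

/-- the orbit closure of the sequence -/
def XX (s : ℕ) : Set (ℤ → Bool) := closure (Set.range fun k : ℤ => fun n => xx s (n + k))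

theorem approx {s : ℕ} {y : ℤ → Bool} (hy : y ∈ XX s) (R : ℕ) :
    ∃ h : ℤ, ∀ a : ℤ, -(R : ℤ) ≤ a → a ≤ R → y a = xx s (h + a) := by
  have hopen : IsOpen {z : ℤ → Bool | ∀ a ∈ Set.Icc (-(R : ℤ)) R, z a = y a} := by
    have : {z : ℤ → Bool | ∀ a ∈ Set.Icc (-(R : ℤ)) R, z a = y a} =
        ⋂ a ∈ Set.Icc (-(R : ℤ)) R, {z : ℤ → Bool | z a = y a} := by
      ext z; simp
    rw [this]
    apply (Set.finite_Icc _ _).isOpen_biInter
    intro a _
    have hc : Continuous (fun z : ℤ → Bool => z a) := continuous_apply a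
    exact (isOpen_discrete ({y a} : Set Bool)).preimage hc
  obtain ⟨z, hz, k, rfl⟩ := mem_closure_iff.1 hy _ hopen (fun a _ => rfl)
  refine ⟨k, fun a h1 h2 => ?_⟩
  have := hz a ⟨h1, h2⟩
  rw [← this, add_comm]

theorem count_ne (s : ℕ) {n : ℕ} (hn : 0 < n) : ∃ L : ℕ, 0 < L ∧ ∀ y ∈ XX s, L ≤ 64 * 2 ^ s *
    cnt L {z : ℤ → Bool | z 0 ≠ z n} y := by
  classical
  obtain ⟨L, hL, h⟩ := xx_ne s hn
  refine ⟨L, hL, fun y hy => ?_⟩
  obtain ⟨g, hg⟩ := approx hy (L + n)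
  rw [cnt_eq (p := fun i : ℕ => xx s (g + i) ≠ xx s (g + i + n)) ?_]
  · exact h g
  intro i hi
  have e1 := hg i (by push_cast; omega) (by push_cast; omega)
  have e2 := hg (i + n) (by push_cast; omega) (by push_cast; omega)
  rw [Set.mem_ofPred_eq, sh_iter, sh_iter]
  rw [show (0 : ℤ) + i = i by ring, show (n : ℤ) + i = i + n by ring, e1, e2, ← add_assoc]

theorem count_pr (s k m M : ℕ) {C : Set (ℤ → Bool)} (hC : Loc m (fun z => z ∈ C))
    {y : ℤ → Bool} (hy : y ∈ XX s) :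
    (2 ^ s - 1) * cnt (P s (k + 1) * (M + 1)) C y ≤
      2 ^ s * cnt (P s (k + 1) * (M + 1)) (C ∩ sh^[P s k] ⁻¹' C) y +
      2 ^ s * (M * (2 * (2 ^ s * P s k) + 2 * m * 2 ^ (k + s + 8)) + P s (k + 1)) := by
  classical
  obtain ⟨g, hg⟩ := approx hy (P s (k + 1) * (M + 1) + P s k + m)
  have key := window s k m M g hC
  obtain ⟨L, hL⟩ : ∃ L, L = P s (k + 1) * (M + 1) := ⟨_, rfl⟩
  rw [← hL] at hg key ⊢
  have e1 : ∀ i < L, (sh^[i] y ∈ C ↔ tx s (g + i) ∈ C) := by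
    intro i hi
    apply hC
    intro a h1 h2
    rw [sh_iter]
    unfold tx
    rw [hg (a + i) (by push_cast; omega) (by push_cast; omega)]
    congr 1; ring
  have e2 : ∀ i < L, (sh^[i] y ∈ sh^[P s k] ⁻¹' C ↔ tx s (g + i + P s k) ∈ C) := by
    intro i hi
    apply hC
    intro a h1 h2
    rw [sh_iter, sh_iter]
    unfold tx
    rw [hg (a + P s k + i) (by push_cast; omega) (by push_cast; omega)]
    congr 1; ring
  rw [cnt_eq e1, cnt_eq (p := fun i : ℕ => tx s (g + i) ∈ C ∧ tx s (g + i + P s k) ∈ C)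
    (fun i hi => by rw [Set.mem_inter_iff, e1 i hi, e2 i hi])]
  exact key

/-- invariant probability measures on the orbit closure -/
structure Inv (s : ℕ) (μ : Measure (ℤ → Bool)) : Prop where
  prob : IsProbabilityMeasure μ
  pres : MeasurePreserving sh μ μ
  supp : μ (XX s)ᶜ = 0

theorem Inv.ae {s : ℕ} {μ : Measure (ℤ → Bool)} (h : Inv s μ) : ∀ᵐ z ∂μ, z ∈ XX s := h.supp

theorem ne_meas {s : ℕ} {μ : Measure (ℤ → Bool)} (h : Inv s μ) {n : ℕ} (hn : 0 < n) :
    (1 : ℝ) / (64 * 2 ^ s) ≤ μ.real {z : ℤ → Bool | z 0 ≠ z n} := by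
  have := h.prob
  obtain ⟨L, hL, hc⟩ := count_ne s hn
  have key := integrate h.pres MeasurableSet.empty (measurable_ne n) L L (64 * 2 ^ s) (by
    filter_upwards [h.ae] with z hz
    have := hc z hz
    have h0 : cnt L ∅ z = 0 := by
      rw [cnt_eq (p := fun _ => False) (fun _ _ => Iff.rfl)]
      simp
    rw [h0, Nat.cast_zero, add_zero]
    exact_mod_cast this)
  have hL' : (0 : ℝ) < L := by exact_mod_cast hL
  simp only [measureReal_empty, mul_zero, add_zero] at key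
  rw [div_le_iff₀ (by positivity)]
  by_contra hcon
  push Not at hcon
  nlinarith

/-- the error term -/
noncomputable def uu (s k m : ℕ) : ℝ := 2 / 2 ^ (k + 8) + 2 * m / P s k

theorem pr_meas {s : ℕ} (hs : 1 ≤ s) {μ : Measure (ℤ → Bool)} (h : Inv s μ) (k m : ℕ)
    {C : Set (ℤ → Bool)} (hC : Loc m (fun z => z ∈ C)) :
    (2 ^ s - 1) * μ.real C ≤ 2 ^ s * μ.real (C ∩ sh^[P s k] ⁻¹' C) + 2 ^ s * uu s k m := by
  classical
  have := h.prob
  have hCm : MeasurableSet C := (loc_open hC).measurableSet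
  have hCm' : MeasurableSet (C ∩ sh^[P s k] ⁻¹' C) :=
    hCm.inter ((sh_cont.measurable.iterate _) hCm)
  have hP : (0 : ℝ) < P s k := by exact_mod_cast P_pos s k
  have hPP : (0 : ℝ) < P s (k + 1) := by exact_mod_cast P_pos s (k + 1)
  have hG2 : (2 : ℝ) ≤ 2 ^ s := by
    calc (2 : ℝ) = 2 ^ 1 := by norm_num
      _ ≤ 2 ^ s := pow_le_pow_right₀ (by norm_num) hs
  have hG1 : (0 : ℝ) < 2 ^ s - 1 := by linarith
  have hu0 : 0 ≤ uu s k m := by unfold uu; positivity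
  have hu : (P s (k + 1) : ℝ) * uu s k m = 2 * (2 ^ s * P s k) + 2 * m * 2 ^ (k + s + 8) := by
    unfold uu
    rw [P_succ, show k + s + 8 = s + (k + 8) by ring, pow_add]
    push_cast
    field_simp
    ring
  have key : ∀ M : ℕ, (2 ^ s - 1) * μ.real C ≤ 2 ^ s * μ.real (C ∩ sh^[P s k] ⁻¹' C) +
      2 ^ s * uu s k m + 2 ^ s * (1 / ((M : ℝ) + 1)) := by
    intro M
    have hi := integrate h.pres hCm hCm' (P s (k + 1) * (M + 1))
      (-(2 ^ s * (M * (P s (k + 1) * uu s k m) + P s (k + 1)) / (2 ^ s - 1)))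
      (2 ^ s / (2 ^ s - 1)) (by
      filter_upwards [h.ae] with z hz
      have := count_pr s k m M hC hz
      have h1 : (((2 ^ s - 1 : ℕ) : ℝ)) = 2 ^ s - 1 := by
        rw [Nat.cast_sub Nat.one_le_two_pow]; push_cast; ring
      have h2 : ((2 : ℝ) ^ s - 1) * cnt (P s (k + 1) * (M + 1)) C z ≤
        2 ^ s * cnt (P s (k + 1) * (M + 1)) (C ∩ sh^[P s k] ⁻¹' C) z +
          2 ^ s * (M * (P s (k + 1) * uu s k m) + P s (k + 1)) := by
        rw [hu, ← h1]
        exact_mod_cast this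
      rw [div_mul_eq_mul_div, neg_add_le_iff_le_add, ← add_div, le_div_iff₀ hG1]
      linarith)
    push_cast at hi
    have hM : (0 : ℝ) < (M : ℝ) + 1 := by positivity
    have hM0 : (0 : ℝ) ≤ M := by positivity
    rw [div_mul_eq_mul_div, neg_add_le_iff_le_add, ← add_div, le_div_iff₀ hG1] at hi
    have hpos : 0 < (P s (k + 1) : ℝ) * (M + 1) := by positivity
    refine le_of_mul_le_mul_left ?_ hpos
    have e2 : (P s (k + 1) : ℝ) * (M + 1) * (2 ^ s * (1 / ((M : ℝ) + 1))) =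
        2 ^ s * P s (k + 1) := by
      field_simp
    rw [mul_add ((P s (k + 1) : ℝ) * (M + 1)), e2]
    have e3 : 2 ^ s * (M * (P s (k + 1) * uu s k m)) ≤
        (P s (k + 1) : ℝ) * (M + 1) * (2 ^ s * uu s k m) := by
      have : 0 ≤ 2 ^ s * (P s (k + 1) * uu s k m) := by positivity
      nlinarith
    nlinarith
  have hlim : Tendsto (fun M : ℕ => 2 ^ s * μ.real (C ∩ sh^[P s k] ⁻¹' C) + 2 ^ s * uu s k m +
      2 ^ s * (1 / ((M : ℝ) + 1))) atTop (𝓝 (2 ^ s * μ.real (C ∩ sh^[P s k] ⁻¹' C) +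
        2 ^ s * uu s k m + 2 ^ s * 0)) :=
    tendsto_const_nhds.add (tendsto_one_div_add_atTop_nhds_zero_nat.const_mul _)
  rw [mul_zero, add_zero] at hlim
  exact ge_of_tendsto' hlim key

theorem partial_rigid {s : ℕ} (hs : 1 ≤ s) {μ : Measure (ℤ → Bool)} (h : Inv s μ)
    {B : Set (ℤ → Bool)} (hB : MeasurableSet B) {ε : ℝ} (hε : 0 < ε) :
    ∀ᶠ k in atTop, (2 ^ s - 1) * μ.real B ≤ 2 ^ s * (μ.real (B ∩ sh^[P s k] ⁻¹' B) + ε) := by
  have := h.prob
  have hG : (0 : ℝ) < 2 ^ s := by positivity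
  have hd := Measure.MeasureDense.of_generateFrom_isSetAlgebra_finite (μ := μ) AA_alg AA_gen
  obtain ⟨C, ⟨m, hC⟩, hBC⟩ := hd.approx B hB (measure_ne_top _ _) (ε / 6) (by positivity)
  have hCm : MeasurableSet C := (loc_open hC).measurableSet
  have hBC' : μ.real (symmDiff B C) ≤ ε / 6 := by
    unfold Measure.real
    exact ENNReal.toReal_le_of_le_ofReal (by positivity) hBC.le
  have hlim : ∀ᶠ k in atTop, uu s k m ≤ ε / 2 := by
    have h1 : Tendsto (fun k : ℕ => (2 + 2 * (m : ℝ)) / (k : ℝ)) atTop (𝓝 0) :=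
      tendsto_const_div_atTop_nhds_zero_nat _
    filter_upwards [h1.eventually (ge_mem_nhds (show (0 : ℝ) < ε / 2 by positivity)),
      eventually_gt_atTop 0] with k hk hk0
    refine le_trans ?_ hk
    have hk0' : (0 : ℝ) < k := by exact_mod_cast hk0
    rw [add_div]
    unfold uu
    apply add_le_add
    · apply div_le_div_of_nonneg_left (by positivity) hk0'
      have : k ≤ 2 ^ (k + 8) := Nat.lt_two_pow_self.le.trans
        (Nat.pow_le_pow_right (by norm_num) (by omega))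
      exact_mod_cast this
    · apply div_le_div_of_nonneg_left (by positivity) hk0'
      exact_mod_cast (le_P s k).le
  filter_upwards [hlim] with k hk
  have hpr := pr_meas hs h k m hC
  have hit := h.pres.iterate (P s k)
  -- compare `B` and `C`
  have s1 : B ⊆ C ∪ symmDiff B C := by
    intro z hz
    by_cases hc : z ∈ C
    · exact Or.inl hc
    · exact Or.inr (Or.inl ⟨hz, hc⟩)
  have s2 : C ∩ sh^[P s k] ⁻¹' C ⊆ (B ∩ sh^[P s k] ⁻¹' B) ∪
      (symmDiff B C ∪ sh^[P s k] ⁻¹' (symmDiff B C)) := by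
    rintro z ⟨hz1, hz2⟩
    by_cases hb1 : z ∈ B
    · by_cases hb2 : sh^[P s k] z ∈ B
      · exact Or.inl ⟨hb1, hb2⟩
      · exact Or.inr (Or.inr (Or.inr ⟨hz2, hb2⟩))
    · exact Or.inr (Or.inl (Or.inr ⟨hz1, hb1⟩))
  have m1 : μ.real B ≤ μ.real C + μ.real (symmDiff B C) :=
    (measureReal_mono s1).trans (measureReal_union_le _ _)
  have m2 : μ.real (C ∩ sh^[P s k] ⁻¹' C) ≤ μ.real (B ∩ sh^[P s k] ⁻¹' B) +
      (μ.real (symmDiff B C) + μ.real (sh^[P s k] ⁻¹' (symmDiff B C))) :=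
    (measureReal_mono s2).trans ((measureReal_union_le _ _).trans
      (by gcongr; exact measureReal_union_le _ _))
  have m3 : μ.real (sh^[P s k] ⁻¹' (symmDiff B C)) = μ.real (symmDiff B C) := by
    unfold Measure.real
    rw [hit.measure_preimage (hB.symmDiff hCm).nullMeasurableSet]
  rw [m3] at m2
  have hG1 : (0 : ℝ) ≤ 2 ^ s - 1 := by
    have : (1 : ℝ) ≤ 2 ^ s := one_le_pow₀ (by norm_num)
    linarith
  have m4 : (2 ^ s - 1) * μ.real B ≤ (2 ^ s - 1) * μ.real C + 2 ^ s * (ε / 6) := by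
    have a1 := mul_le_mul_of_nonneg_left m1 hG1
    have a2 : (2 ^ s - 1) * μ.real (symmDiff B C) ≤ 2 ^ s * (ε / 6) := by
      have := measureReal_nonneg (μ := μ) (s := symmDiff B C)
      nlinarith
    rw [mul_add] at a1
    linarith
  have m5 : 2 ^ s * μ.real (C ∩ sh^[P s k] ⁻¹' C) ≤
      2 ^ s * (μ.real (B ∩ sh^[P s k] ⁻¹' B) + ε / 3) := by
    apply mul_le_mul_of_nonneg_left _ hG.le
    linarith
  have m6 : 2 ^ s * uu s k m ≤ 2 ^ s * (ε / 2) := mul_le_mul_of_nonneg_left hk hG.le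
  calc (2 ^ s - 1) * μ.real B ≤ (2 ^ s - 1) * μ.real C + 2 ^ s * (ε / 6) := m4
    _ ≤ 2 ^ s * (μ.real (B ∩ sh^[P s k] ⁻¹' B) + ε / 3) + 2 ^ s * (ε / 2) + 2 ^ s * (ε / 6) := by
      linarith
    _ = 2 ^ s * (μ.real (B ∩ sh^[P s k] ⁻¹' B) + ε) := by ring

/-- non-rigidity, quantitative form -/
theorem not_rigid {s : ℕ} {μ : Measure (ℤ → Bool)} (h : Inv s μ) {n : ℕ} (hn : 0 < n) :
    μ.real ({z : ℤ → Bool | z 0 = true} ∩ sh^[n] ⁻¹' {z : ℤ → Bool | z 0 = true}) +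
      1 / (128 * 2 ^ s) ≤ μ.real {z : ℤ → Bool | z 0 = true} := by
  have := h.prob
  set B : Set (ℤ → Bool) := {z : ℤ → Bool | z 0 = true} with hB
  have hev : Measurable (fun z : ℤ → Bool => z 0) := measurable_pi_apply 0
  have hBm : MeasurableSet B := hev (measurableSet_singleton true)
  have hit := h.pres.iterate n
  have hne := ne_meas h hn
  have e0 : {z : ℤ → Bool | z 0 ≠ z n} = (B \ sh^[n] ⁻¹' B) ∪ (sh^[n] ⁻¹' B \ B) := by
    ext z
    have h1 : z ∈ sh^[n] ⁻¹' B ↔ z n = true := by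
      rw [Set.mem_preimage, hB, Set.mem_ofPred_eq, sh_iter, zero_add]
    rw [Set.mem_union, Set.mem_sdiff, Set.mem_sdiff, h1, hB, Set.mem_ofPred_eq, Set.mem_ofPred_eq]
    cases z 0 <;> cases z n <;> simp
  rw [e0] at hne
  have h1 := measureReal_union_le (μ := μ) (B \ sh^[n] ⁻¹' B) (sh^[n] ⁻¹' B \ B)
  have hpm : MeasurableSet (sh^[n] ⁻¹' B) := hit.measurable hBm
  have h2 := measureReal_inter_add_sdiff (μ := μ) (s := B) hpm
  have h3 := measureReal_inter_add_sdiff (μ := μ) (s := sh^[n] ⁻¹' B) hBm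
  have h4 : μ.real (sh^[n] ⁻¹' B) = μ.real B := by
    unfold Measure.real
    rw [hit.measure_preimage hBm.nullMeasurableSet]
  rw [Set.inter_comm] at h3
  have h5 : (1 : ℝ) / (64 * 2 ^ s) = 2 * (1 / (128 * 2 ^ s)) := by field_simp; norm_num
  linarith

end Pool.Agent.KS6_95.TZ
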